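import Pool.Agent.Lib.MP_40b13d_lc.ZDefs

/-!
# The continuum hypothesis inside a structure `(M, E)` for the language of set theory
-/

namespace Pool.Agent.Lib.CHModel

open Pool.Agent.Lib.Forcing Pool.Agent.Lib.MP_40b13d_lc

variable {M : Type*} (E : M → M → Prop)

/-- The continuum hypothesis holds in `(M, E)`: if `o` is the set of natural numbers and `p` is its
power set, then there is a function onto `p` from an ordinal `w` all of whose elements are
countable (that is, from an ordinal `w ≤ ω₁`). -/
def CH : Prop :=
  ∀ o, IsOmega E o → ∀ p, IsPower E p o →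
    ∃ w, IsOrdinal E w ∧ (∀ x, E x w → HasInj E x o) ∧ HasSurj E w p

end Pool.Agent.Lib.CHModel
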