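import Pool.Agent.Lib.MP_40b13d_lc.ZFml
import Pool.Agent.Lib.CHModel.Defs

/-!
# The formula for CH
-/

set_option linter.unusedSimpArgs false

namespace Pool.Agent.Lib.CHModel

open Pool.Agent.Lib.Forcing Pool.Agent.Lib.MP_40b13d_lc

variable {M : Type*} {E : M → M → Prop} {v : ℕ → M}

def fCH : Fml :=
  .fall (fimp (fOmega 0) (.fall (fimp (fPower 0 1) (fex (.fand (fOrdinal 0)
    (.fand (fball 0 (fInj 0 3)) (fSurj 0 1)))))))

theorem sat_fCH : Sat E fCH v ↔ CH E := by
  simp only [fCH, CH, sat_all, sat_imp, sat_ex, sat_and, sat_fOmega, sat_fPower, sat_fOrdinal,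
    sat_ball, sat_fInj, sat_fSurj, cons_zero, cons_succ, cons_one, cons_two, cons_three]

/-- Transfer to a countable elementary substructure. -/
theorem exists_countable (k : M) (hZ : IsZFC M E) (hC : CH E) :
    ∃ (N : Type) (F : N → N → Prop), Countable N ∧ IsZFC N F ∧ CH F := by
  obtain ⟨N, F, k', j, hc, -, hj⟩ := exists_countable_elementary E k
  have hj' : Elem F E j := hj
  refine ⟨N, F, hc, hj'.isZFC k' hZ, ?_⟩
  rw [← sat_fCH (v := fun _ => k'), hj', sat_fCH]
  exact hC

end Pool.Agent.Lib.CHModel
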