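import Pool.Agent.Lib.CHModel.Fml
import Pool.Agent.Lib.MP_40b13d_lc.Bv

/-!
# A model of CH: the countably closed collapse of the continuum

The conditions are the functions from countable subsets of an ordinal `b` (the first uncountable
one) to the power set of `ℕ`.  In every model given by this forcing the canonical name of `b` is an
ordinal with countable elements and the generic function maps it onto the power set of `ω`.
-/

open Cardinal

namespace Pool.Agent.Lib.CHModel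

open Pool.Agent.Lib.Forcing Pool.Agent.Lib.MP_40b13d_lc

/-- functions from countable subsets of `Ω` to the power set of `ℕ` -/
structure Cpf (Ω : Type 1) where
  D : Set Ω
  f : Ω → Set ℕ
  cD : D.Countable

variable {Ω : Type 1}

instance : Preorder (Cpf Ω) where
  le q p := p.D ⊆ q.D ∧ ∀ d ∈ p.D, q.f d = p.f d
  le_refl p := ⟨subset_rfl, fun _ _ => rfl⟩
  le_trans r q p h h' := ⟨h'.1.trans h.1, fun d hd => (h.2 d (h'.1 hd)).trans (h'.2 d hd)⟩

instance : Nonempty (Cpf Ω) := ⟨⟨∅, fun _ => ∅, Set.countable_empty⟩⟩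

theorem Cpf.dense_dom (p : Cpf Ω) (d : Ω) : ∃ q : Cpf Ω, q ≤ p ∧ d ∈ q.D := by
  classical
  refine ⟨⟨insert d p.D, p.f, p.cD.insert d⟩, ⟨Set.subset_insert _ _, fun _ _ => rfl⟩,
    Set.mem_insert _ _⟩

theorem Cpf.dense_val [Uncountable Ω] (p : Cpf Ω) (Z : Set ℕ) :
    ∃ q : Cpf Ω, q ≤ p ∧ ∃ d ∈ q.D, q.f d = Z := by
  classical
  have h : ∃ d, d ∉ p.D := by
    by_contra hcon
    push Not at hcon
    have h1 : p.D = Set.univ := Set.eq_univ_of_forall hcon
    have h2 := p.cD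
    rw [h1, Set.countable_univ_iff] at h2
    exact not_countable h2
  obtain ⟨d, hd⟩ := h
  refine ⟨⟨insert d p.D, fun x => if x = d then Z else p.f x, p.cD.insert d⟩,
    ⟨Set.subset_insert _ _, fun x hx => ?_⟩, d, Set.mem_insert _ _, by simp⟩
  have : x ≠ d := fun h => hd (h ▸ hx)
  simp [this]

theorem Cpf.distr (D : ℕ → Cpf Ω → Prop) (hopen : ∀ n p q, D n p → q ≤ p → D n q)
    (hdense : ∀ n p, ∃ q, q ≤ p ∧ D n q) (p : Cpf Ω) : ∃ q, q ≤ p ∧ ∀ n, D n q := by
  classical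
  choose f hf1 hf2 using hdense
  let s : ℕ → Cpf Ω := fun n => Nat.rec p (fun n x => f n x) n
  have hs : ∀ n, s (n + 1) ≤ s n := fun n => hf1 n (s n)
  have hanti : ∀ n m, n ≤ m → s m ≤ s n := fun n m h => antitone_nat_of_succ_le hs h
  let q : Cpf Ω := ⟨⋃ n, (s n).D, fun d => if h : ∃ n, d ∈ (s n).D then (s h.choose).f d else ∅,
    Set.countable_iUnion fun n => (s n).cD⟩
  have hq : ∀ n, q ≤ s n := by
    intro n
    refine ⟨Set.subset_iUnion (fun n => (s n).D) n, fun d hd => ?_⟩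
    have h : ∃ n, d ∈ (s n).D := ⟨n, hd⟩
    show (if h : ∃ n, d ∈ (s n).D then (s h.choose).f d else ∅) = (s n).f d
    rw [dif_pos h]
    rcases le_total n h.choose with h1 | h1
    · exact (hanti _ _ h1).2 d hd
    · exact ((hanti _ _ h1).2 d h.choose_spec).symm
  exact ⟨q, hq 0, fun n => hopen n _ _ (hf2 n (s n)) (hq (n + 1))⟩

/-- decide a subset of `ω` -/
private theorem Force_decide {P : Type 1} [Preorder P] {D : ℕ → P → Prop}
    (hD : ∀ n p q, D n p → q ≤ p → D n q)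
    (hdist : ∀ A : ℕ → P → Prop, (∀ n p q, A n p → q ≤ p → A n q) →
      (∀ n p, ∃ q, q ≤ p ∧ A n q) → ∀ p, ∃ q, q ≤ p ∧ ∀ n, A n q) (p : P) :
    ∃ q, q ≤ p ∧ ∃ Z : Set ℕ, ∀ n, (n ∈ Z → D n q) ∧ (n ∉ Z → ∀ r, r ≤ q → ¬ D n r) := by
  obtain ⟨q, hq, h⟩ := hdist (fun n p => D n p ∨ ∀ r, r ≤ p → ¬ D n r)
    (by
      rintro n p q (h | h) hq
      · exact Or.inl (hD n p q h hq)
      · exact Or.inr fun r hr => h r (hr.trans hq))
    (by
      intro n p
      by_cases h : ∃ r, r ≤ p ∧ D n r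
      · obtain ⟨r, hr, h⟩ := h
        exact ⟨r, hr, Or.inl h⟩
      · push Not at h
        exact ⟨p, le_rfl, Or.inr h⟩) p
  refine ⟨q, hq, {n | D n q}, fun n => ⟨fun h => h, fun h1 => ?_⟩⟩
  rcases h n with h2 | h2
  · exact (h1 h2).elim
  · exact h2

private theorem Force_isFun {P : Type 1} [Preorder P] (U : GenUlt P) {ι : Type 1}
    (α β : ι → Name P) {A : ι → P → Prop} (hA : ∀ i p q, A i p → q ≤ p → A i q) (σ τ : Name P)
    {q : P} (hU : U.Has q)
    (h1 : ∀ r, r ≤ q → ∀ i, A i r → MemF (α i) σ r ∧ MemF (β i) τ r)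
    (h2 : ∀ ρ, ∀ r, r ≤ q → MemF ρ σ r → ∃ s, s ≤ r ∧ ∃ i, A i s ∧ EqF ρ (α i) s)
    (h3 : ∀ i i', ∀ r, r ≤ q → A i r → A i' r → EqF (α i) (α i') r → EqF (β i) (β i') r) :
    IsFun (ModE U) (U.cl (relN α β A)) (U.cl σ) (U.cl τ) := by
  constructor
  · intro z hz
    obtain ⟨ζ, rfl⟩ := exists_cl z
    rw [modE_cl, relN, ev_memF_cn hA] at hz
    have h4 : Sat (ModE U) (fbex 1 (fbex 3 (dOPair 2 1 0)))
        (fun i => U.cl (cons ζ (cons σ (fun _ => τ)) i)) := by
      rw [los]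
      refine GenUlt.Ev.imp2 hU hz ?_
      rintro p hp ⟨i, h5, h6⟩
      rw [forces_iff]
      intro V hV
      simp only [sat_bex, sat_dOPair, cons_zero, cons_one, cons_two, cons_three]
      obtain ⟨h7, h8⟩ := h1 p hp i h5
      refine ⟨V.cl (α i), memF_iff_models.1 h7 V hV, V.cl (β i),
        memF_iff_models.1 h8 V hV, ?_⟩
      rw [isOPair_iff]
      exact eqF_iff_models.1 h6 V hV
    simp only [sat_bex, sat_dOPair, cons_zero, cons_one, cons_two, cons_three] at h4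
    obtain ⟨x, hx, y, hy, h4⟩ := h4
    exact ⟨x, y, hx, hy, h4⟩
  · intro x hx
    obtain ⟨ρ, rfl⟩ := exists_cl x
    rw [modE_cl] at hx
    apply existsUnique_of_exists_of_unique
    · have h4 : Sat (ModE U) (fbex 1 (dApp 3 1 0))
          (fun i => U.cl (cons ρ (cons τ (fun _ => relN α β A)) i)) := by
        rw [los]
        refine GenUlt.Ev.imp2 hU hx ?_
        intro p hp h5
        apply Forces.dense
        intro r hr
        obtain ⟨s, hs, i, h6, h7⟩ := h2 ρ r (hr.trans hp) (h5.mono hr)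
        refine ⟨s, hs, ?_⟩
        rw [forces_iff]
        intro V hV
        simp only [sat_bex, sat_dApp, cons_zero, cons_one, cons_two, cons_three]
        obtain ⟨-, h8⟩ := h1 s (hs.trans (hr.trans hp)) i h6
        refine ⟨V.cl (β i), memF_iff_models.1 h8 V hV, ?_⟩
        rw [isApp_relN V α β hA]
        exact GenUlt.Ev.imp hV fun t ht => ⟨i, hA _ _ _ h6 ht, h7.mono ht, EqF.refl _ _⟩
      simp only [sat_bex, sat_dApp, cons_zero, cons_one, cons_two, cons_three] at h4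
      exact h4
    · rintro y y' ⟨_, h4⟩ ⟨_, h5⟩
      obtain ⟨υ, rfl⟩ := exists_cl y
      obtain ⟨υ', rfl⟩ := exists_cl y'
      rw [isApp_relN U α β hA] at h4 h5
      rw [cl_eq]
      refine GenUlt.Ev.imp3 hU h4 h5 ?_
      rintro p hp ⟨i, h6, h7, h8⟩ ⟨i', h9, h10, h11⟩
      exact (h8.trans (h3 i i' p hp h6 h9 (h7.symm.trans h10))).trans h11.symm

private theorem Force_inj {P : Type 1} [Preorder P] (U : GenUlt P) {ι : Type 1}
    (α β : ι → Name P) {A : ι → P → Prop} (hA : ∀ i p q, A i p → q ≤ p → A i q)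
    {q : P} (hU : U.Has q)
    (h : ∀ i i', ∀ r, r ≤ q → A i r → A i' r → EqF (β i) (β i') r → EqF (α i) (α i') r) :
    ∀ x x' y, IsApp (ModE U) (U.cl (relN α β A)) x y → IsApp (ModE U) (U.cl (relN α β A)) x' y →
      x = x' := by
  intro x x' y h1 h2
  obtain ⟨σ, rfl⟩ := exists_cl x
  obtain ⟨σ', rfl⟩ := exists_cl x'
  obtain ⟨υ, rfl⟩ := exists_cl y
  rw [isApp_relN U α β hA] at h1 h2
  rw [cl_eq]
  refine GenUlt.Ev.imp3 hU h1 h2 ?_
  rintro p hp ⟨i, h6, h7, h8⟩ ⟨i', h9, h10, h11⟩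
  exact (h7.trans (h i i' p hp h6 h9 (h8.symm.trans h11))).trans h10.symm

/-- the name of a set of natural numbers -/
private def Force_zN {P : Type 1} [Preorder P] (Z : Set ℕ) : Name P :=
  cn (ι := ULift.{1} ℕ) (fun n => natN n.down) (fun n _ => n.down ∈ Z)

private theorem Force_eq_zN {P : Type 1} [Preorder P] {υ : Name P} {Z : Set ℕ} {q : P}
    (hsub : SubF υ omegaN q)
    (h : ∀ n, (n ∈ Z → MemF (natN n) υ q) ∧ (n ∉ Z → ∀ r, r ≤ q → ¬ MemF (natN n) υ r)) :
    EqF υ (Force_zN Z) q := by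
  apply eqF_of_sub
  · intro ρ r hr h1
    apply MemF.dense
    intro s hs
    obtain ⟨t, ht, n, h2⟩ := memF_omegaN.1 (hsub ρ r hr h1) s hs
    refine ⟨t, ht, MemF.congr_left h2.symm ?_⟩
    have h3 : MemF (natN n) υ t := MemF.congr_left h2 (h1.mono (ht.trans hs))
    have hn : n ∈ Z := by
      by_contra hn
      exact (h n).2 hn t ((ht.trans hs).trans hr) h3
    exact memF_cn_of (nm := fun n : ULift.{1} ℕ => (natN n.down : Name P))
      (A := fun n _ => n.down ∈ Z) ⟨n⟩ hn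
  · intro ρ r hr h1
    apply MemF.dense
    intro s hs
    rw [Force_zN, memF_cn (fun _ _ _ h _ => h)] at h1
    obtain ⟨t, ht, ⟨n⟩, hn, h2⟩ := h1 s hs
    exact ⟨t, ht, MemF.congr_left h2.symm (((h n).1 hn).mono ((ht.trans hs).trans hr))⟩

private theorem Force_zN_sub {P : Type 1} [Preorder P] (Z : Set ℕ) (p : P) :
    SubF (Force_zN Z) omegaN p := by
  intro ρ r _ h1
  apply MemF.dense
  intro s hs
  rw [Force_zN, memF_cn (fun _ _ _ h _ => h)] at h1
  obtain ⟨t, ht, ⟨n⟩, -, h2⟩ := h1 s hs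
  exact ⟨t, ht, MemF.congr_left h2.symm (natN_mem_omegaN _ _)⟩

private theorem Force_countable {b : Ordinal.{0}} (hb : ∀ x < b, (Set.Iio x).Countable)
    (U : GenUlt (Cpf (Set.Iio b))) :
    ∀ x, ModE U x (U.cl (chk b)) → HasInj (ModE U) x (U.cl omegaN) := by
  have h : Sat (ModE U) (fball 0 (fInj 0 2))
      (fun i => U.cl ((cons (chk b) fun _ => omegaN : ℕ → Name (Cpf (Set.Iio b))) i)) := by
    rw [los]
    apply GenUlt.ev_true
    intro p
    rw [forces_ball_chk (o := b) rfl]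
    intro x hx
    rw [forces_iff]
    intro V hV
    rw [sat_fInj]
    obtain ⟨e, he⟩ := Set.countable_iff_exists_injective.1 (hb x hx)
    have hA : ∀ (y : Set.Iio x) (p q : Cpf (Set.Iio b)), True → q ≤ p → True :=
      fun _ _ _ h _ => h
    refine ⟨V.cl (relN (ι := Set.Iio x) (fun y => chk y.1) (fun y => natN (e y))
      (fun _ _ => True)), ?_, ?_⟩
    · refine Force_isFun V _ _ hA (chk x) omegaN hV ?_ ?_ ?_
      · intro r _ y _
        exact ⟨chk_mem y.2 r, natN_mem_omegaN _ _⟩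
      · intro ρ r _ h1
        obtain ⟨s, hs, y, hy, h2⟩ := memF_chk.1 h1 r le_rfl
        exact ⟨s, hs, ⟨y, hy⟩, trivial, h2⟩
      · intro y y' r _ _ _ h3
        have h4 : y = y' := Subtype.ext (chk_inj h3)
        rw [h4]
        exact EqF.refl _ _
    · refine Force_inj V _ _ hA hV ?_
      intro y y' r _ _ _ h3
      have h4 : e y = e y' := natN_inj h3
      have h5 : y = y' := he h4
      rw [h5]
      exact EqF.refl _ _
  simp only [sat_ball, sat_fInj, cons_zero, cons_one, cons_two] at h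
  exact h

private theorem Force_surj {b : Ordinal.{0}} [Uncountable (Set.Iio b)]
    (V : GenUlt (Cpf (Set.Iio b))) {q : Cpf (Set.Iio b)} (hV : V.Has q)
    {ρ : Name (Cpf (Set.Iio b))}
    (key : ∀ (W : GenUlt (Cpf (Set.Iio b))) (r : Cpf (Set.Iio b)), r ≤ q → W.Has r →
      IsPower (ModE W) (W.cl ρ) (W.cl omegaN)) :
    HasSurj (ModE V) (V.cl (chk b)) (V.cl ρ) := by
  have memρ : ∀ r, r ≤ q → ∀ σ, SubF σ omegaN r → MemF σ ρ r := by
    intro r hr σ h
    rw [memF_iff_models]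
    intro W hW
    refine (key W r hr hW _).2 ?_
    have h1 : Forces (dSub 0 1) (cons σ fun _ => omegaN) r := forces_dSub.2 h
    have h2 := forces_iff.1 h1 W hW
    rw [sat_dSub] at h2
    exact h2
  have hA : ∀ (t : Set.Iio b × ULift.{1} (Set ℕ)) (p q : Cpf (Set.Iio b)),
      (t.1 ∈ p.D ∧ p.f t.1 = t.2.down) → q ≤ p → (t.1 ∈ q.D ∧ q.f t.1 = t.2.down) :=
    fun t p q h hq => ⟨hq.1 h.1, by rw [hq.2 _ h.1]; exact h.2⟩
  refine ⟨V.cl (relN (ι := Set.Iio b × ULift.{1} (Set ℕ)) (fun t => chk t.1.1)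
    (fun t => Force_zN t.2.down) (fun t r => t.1 ∈ r.D ∧ r.f t.1 = t.2.down)), ?_, ?_⟩
  · refine Force_isFun V _ _ hA (chk b) ρ hV ?_ ?_ ?_
    · intro r hr t _
      exact ⟨chk_mem t.1.2 r, memρ r hr _ (Force_zN_sub _ _)⟩
    · intro σ r _ h
      obtain ⟨s, hs, x, hx, h2⟩ := memF_chk.1 h r le_rfl
      obtain ⟨s', hs', hd⟩ := s.dense_dom ⟨x, hx⟩
      exact ⟨s', hs'.trans hs, (⟨x, hx⟩, ⟨s'.f ⟨x, hx⟩⟩), ⟨hd, rfl⟩, h2.mono hs'⟩
    · intro t t' r _ ht ht' h
      have e : t.1 = t'.1 := Subtype.ext (chk_inj h)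
      have e2 : t.2.down = t'.2.down := by rw [← ht.2, ← ht'.2, e]
      show EqF (Force_zN t.2.down) (Force_zN t'.2.down) r
      rw [e2]
      exact EqF.refl _ _
  · intro y hy
    obtain ⟨υ, rfl⟩ := exists_cl y
    rw [modE_cl] at hy
    generalize hγ : (relN (ι := Set.Iio b × ULift.{1} (Set ℕ)) (fun t => chk t.1.1)
      (fun t => Force_zN t.2.down) (fun (t : Set.Iio b × ULift.{1} (Set ℕ))
        (r : Cpf (Set.Iio b)) => t.1 ∈ r.D ∧ r.f t.1 = t.2.down) :
        Name (Cpf (Set.Iio b))) = γ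
    have h4 : Sat (ModE V) (fex (dApp 2 0 1))
        (fun i => V.cl ((cons υ fun _ => γ : ℕ → Name (Cpf (Set.Iio b))) i)) := by
      rw [los]
      refine GenUlt.Ev.imp2 hV hy ?_
      intro p hp h5
      rw [forces_ex]
      intro s0 hs0
      have hsub : SubF υ omegaN s0 := by
        have h6 : Forces (dSub 0 1) (cons υ fun _ => omegaN) s0 := by
          rw [forces_iff]
          intro W hW
          rw [sat_dSub]
          exact (key W s0 (hs0.trans hp) hW _).1 (memF_iff_models.1 (h5.mono hs0) W hW)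
        exact forces_dSub.1 h6
      obtain ⟨q', hq', Z, hZ⟩ := Force_decide (D := fun n p => MemF (natN n) υ p)
        (fun n p q h hq => MemF.mono h hq) Cpf.distr s0
      have h3 : EqF υ (Force_zN Z) q' := Force_eq_zN (hsub.mono hq') hZ
      obtain ⟨q2, hq2, d, hd, hdZ⟩ := q'.dense_val Z
      refine ⟨q2, hq2.trans hq', chk d.1, ?_⟩
      rw [forces_dApp]
      show MemF (opN (chk d.1) υ) γ q2
      refine MemF.congr_left (eqF_opN.2 ⟨EqF.refl _ _, (h3.mono hq2).symm⟩) ?_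
      rw [← hγ]
      exact memF_cn_of (nm := fun t : Set.Iio b × ULift.{1} (Set ℕ) =>
          (opN (chk t.1.1) (Force_zN t.2.down) : Name (Cpf (Set.Iio b))))
        (A := fun t r => t.1 ∈ r.D ∧ r.f t.1 = t.2.down) (d, ⟨Z⟩) ⟨hd, hdZ⟩
    simp only [sat_ex, sat_dApp, cons_zero, cons_one, cons_two] at h4
    exact h4

theorem mod_ch {b : Ordinal.{0}} [Uncountable (Set.Iio b)]
    (hb : ∀ x < b, (Set.Iio x).Countable) (U : GenUlt (Cpf (Set.Iio b))) : CH (ModE U) := by
  intro o ho p hp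
  have e : o = U.cl omegaN := IsOmega.unique (mod_isZFC U) ho (mod_omega U)
  subst e
  refine ⟨U.cl (chk b), mod_ordinal_chk U b, Force_countable hb U, ?_⟩
  obtain ⟨ρ, rfl⟩ := exists_cl p
  have h : Sat (ModE U) (fimp (fPower 0 1) (fSurj 2 0))
      (fun i => U.cl ((cons ρ (cons omegaN fun _ => chk b) :
        ℕ → Name (Cpf (Set.Iio b))) i)) := by
    rw [los]
    apply GenUlt.ev_true
    intro p
    rw [forces_imp]
    intro q _ hyp
    rw [forces_iff]
    intro V hV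
    rw [sat_fSurj]
    refine Force_surj V hV ?_
    intro W r hr hW
    have h1 := forces_iff.1 (hyp.mono hr) W hW
    rw [sat_fPower] at h1
    exact h1
  simp only [sat_imp, sat_fPower, sat_fSurj, cons_zero, cons_one, cons_two] at h
  exact h hp

theorem exists_model : ∃ (M : Type) (E : M → M → Prop), Countable M ∧ IsZFC M E ∧ CH E := by
  let b : Ordinal.{0} := (Order.succ (ℵ₀ : Cardinal.{0})).ord
  have hb0 : ℵ₀ < #(Set.Iio b) := by
    rw [Cardinal.mk_Iio_ordinal, card_ord, ← lift_aleph0.{1, 0}, lift_lt]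
    exact Order.lt_succ _
  have hub : Uncountable (Set.Iio b) := by
    rw [← Cardinal.aleph0_lt_mk_iff]
    exact hb0
  have hb : ∀ x < b, (Set.Iio x).Countable := by
    intro x hx
    rw [← Cardinal.le_aleph0_iff_set_countable, Cardinal.mk_Iio_ordinal, ← lift_aleph0.{1, 0},
      lift_le]
    exact Order.lt_succ_iff.1 (Cardinal.lt_ord.1 hx)
  obtain ⟨p⟩ : Nonempty (Cpf (Set.Iio b)) := inferInstance
  obtain ⟨U, -⟩ := exists_genUlt p
  exact exists_countable (U.cl omegaN) (mod_isZFC U) (mod_ch hb U)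

end Pool.Agent.Lib.CHModel
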