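import Pool.Agent.Lib.CHModel.Defs
import Pool.Agent.Lib.MP_40b13d_lc.ZfSide

/-!
# CH in the universe of sets of Mathlib

If the power set of `ω` is the image of an ordinal with countable elements in `ZFSet.{0}`, then
`ℵ₁ = 𝔠` in Mathlib terms.
-/

open Cardinal

namespace Pool.Agent.Lib.CHModel

open Pool.Agent.Lib.Forcing Pool.Agent.Lib.MP_40b13d_lc

private theorem Zf_card_om : (ZfSide.om : ZFSet.{0}).card = Cardinal.aleph0 := by
  rw [← Cardinal.lift_inj.{0, 1}, ← ZFSet.cardinalMk_coe_sort, Cardinal.lift_aleph0]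
  have e : ULift.{1} ℕ ≃ {x // x ∈ ZfSide.om} := Equiv.ulift.trans ZfSide.natEquiv
  have h1 : Cardinal.mk {x // x ∈ ZfSide.om} = Cardinal.mk (ULift.{1} ℕ) :=
    (Cardinal.mk_congr e).symm
  exact h1.trans (by simp)

private theorem Zf_card_le_of_inj {a b : ZFSet.{0}} (g : {x // x ∈ a} → {x // x ∈ b})
    (hg : Function.Injective g) : a.card ≤ b.card := by
  rw [← Cardinal.lift_le.{1, 0}, ← ZFSet.cardinalMk_coe_sort, ← ZFSet.cardinalMk_coe_sort]
  exact Cardinal.mk_le_of_injective hg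

private theorem Zf_card_le_of_surj {a b : ZFSet.{0}} (g : {x // x ∈ a} → {x // x ∈ b})
    (hg : Function.Surjective g) : b.card ≤ a.card := by
  rw [← Cardinal.lift_le.{1, 0}, ← ZFSet.cardinalMk_coe_sort, ← ZFSet.cardinalMk_coe_sort]
  exact Cardinal.mk_le_of_surjective hg

theorem ch_of_Ein (h : CH Ein) : Cardinal.aleph 1 = (Cardinal.continuum : Cardinal.{0}) := by
  refine le_antisymm Cardinal.aleph_one_le_continuum ?_
  obtain ⟨w, hw, hcount, hsurj⟩ := h ZfSide.om ZfSide.isOmega_om (ZFSet.powerset ZfSide.om)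
    (fun z => by
      show z ∈ ZFSet.powerset ZfSide.om ↔ _
      rw [ZFSet.mem_powerset]
      exact ⟨fun h1 x hx => h1 hx, fun h1 x hx => h1 x hx⟩)
  have hord : w.IsOrdinal := by
    rw [ZFSet.isOrdinal_iff_forall_mem_isTransitive]
    refine ⟨fun x hx y hy => hw.1 x hx y hy, fun x hx y hy z hz => hw.2 x hx y hy z hz⟩
  have how : w.rank.toZFSet = w := hord.toZFSet_rank_eq
  have h1 : ∀ a < w.rank, a.card ≤ Cardinal.aleph0 := by
    intro a ha
    have h2 : a.toZFSet ∈ w := by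
      rw [← how]
      exact Ordinal.toZFSet_mem_toZFSet_iff.2 ha
    obtain ⟨g, hg⟩ := ZfSide.hasInj_iff.1 (hcount _ h2)
    have h3 := Zf_card_le_of_inj g hg
    rwa [Ordinal.card_toZFSet, Zf_card_om] at h3
  have h4 : w.rank ≤ (Cardinal.aleph 1).ord := by
    by_contra h5
    have h6 := h1 _ (not_le.1 h5)
    rw [Cardinal.card_ord] at h6
    exact absurd h6 (not_le.2 (by
      rw [← Cardinal.aleph_zero]
      exact Cardinal.aleph_lt_aleph.2 zero_lt_one))
  have h7 : w.card ≤ Cardinal.aleph 1 := by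
    rw [← how, Ordinal.card_toZFSet]
    have h8 := Ordinal.card_le_card h4
    rwa [Cardinal.card_ord] at h8
  obtain ⟨g, hg⟩ := ZfSide.hasSurj_iff.1 hsurj
  have h9 := (Zf_card_le_of_surj g hg).trans h7
  rwa [ZFSet.card_powerset, Zf_card_om, Cardinal.two_power_aleph0] at h9

end Pool.Agent.Lib.CHModel
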